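import Pool.Agent.Run7.h148.Norms

set_option autoImplicit false

open Set Filter Topology Run7.h148

namespace Pool.Agent.Results.MP_fb2db9_an.EllipseGrowth

/-- Yudovich's growth conjecture on elliptical domains: arbitrarily close in `C^α` to every
vorticity `f ∈ C^α` (steady or not) there is an initial vorticity all of whose solutions have
`C^α` norm tending to infinity. -/
theorem result (a b : ℝ) (ha : 0 < a) (hb : 0 < b) (α : ℝ) (h0 : 0 < α) (h1 : α < 1)
    (f : ℂ → ℝ) (hf : hNorm α (ell a b) f < ⊤) (ε : ℝ) (hε : 0 < ε) :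
    ∃ ω₀ : ℂ → ℝ, hNorm α (ell a b) (fun z => ω₀ z - f z) ≤ ENNReal.ofReal ε ∧
      ∀ ω ψ : ℝ → ℂ → ℝ, EulerSol 2 (ell a b) ω ψ → (∀ z ∈ ell a b, ω 0 z = ω₀ z) →
        Tendsto (fun t => hNorm α (ell a b) (ω t)) atTop (𝓝 ⊤) :=
  ellipse_growth ha hb h0 h1 hf hε

end Pool.Agent.Results.MP_fb2db9_an.EllipseGrowth
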