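import Pool.Agent.Run7.h148.EllC1

set_option autoImplicit false

open Set Filter Topology Run7.h148

namespace Pool.Agent.Results.MP_fb2db9_an.EllipseInstability

/-- Yudovich's instability conjecture on elliptical domains: arbitrarily close in `C^{1,α}` to
every vorticity `f ∈ C^{1,α}` (in particular to every steady state) there is an initial vorticity
all of whose solutions leave `f` in the `C^{1,α}` norm, their distance to `f` tending to
infinity. -/
theorem result (a b : ℝ) (ha : 0 < a) (hb : 0 < b) (α : ℝ) (h0 : 0 < α) (h1 : α < 1)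
    (f : ℂ → ℝ) (hf : h1Norm α (ell a b) f < ⊤) (ε : ℝ) (hε : 0 < ε) :
    ∃ ω₀ : ℂ → ℝ, h1Norm α (ell a b) (fun z => ω₀ z - f z) ≤ ENNReal.ofReal ε ∧
      ∀ ω ψ : ℝ → ℂ → ℝ, EulerSol 3 (ell a b) ω ψ → (∀ z ∈ ell a b, ω 0 z = ω₀ z) →
        Tendsto (fun t => h1Norm α (ell a b) (fun z => ω t z - f z)) atTop (𝓝 ⊤) :=
  ellipse_growth_C1 ha hb h0 h1 hf hε

end Pool.Agent.Results.MP_fb2db9_an.EllipseInstability
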